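import Pool.Agent.Y157.PC.Stm
import Pool.Agent.Y157.PS.Tools
import Pool.Agent.Y536.PS.CONJ

/-! From the decomposition group of `W` in `M` to the action on values (job PC-FTWO). -/

set_option autoImplicit false
set_option linter.all false

open Polynomial FF

namespace Pool.Agent.Y954.PC

open Pool.Agent.Y157.PS Pool.Agent.Y157.PC

theorem non_comap {M N : Type} [Field M] [Field N] (i : N →+* M) (O : ValuationSubring M) (z : N) :
    z ∈ (O.comap i).nonunits ↔ i z ∈ O.nonunits := by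
  rw [nonunits_iff, nonunits_iff, ValuationSubring.mem_comap, ValuationSubring.mem_comap, map_inv₀,
    map_eq_zero_iff i i.injective]

theorem const_mem {k F Ω : Type} [Field k] [Field F] [Field Ω]
    [Algebra F Ω] [Algebra k Ω] (ℓ : ℕ) (c : algebraicClosure k Ω) :
    (c : Ω) ∈ geomPro ℓ k F Ω :=
  (maxPro ℓ k (geomF k F Ω) Ω).algebraMap_mem
    ⟨(c : Ω), IntermediateField.subset_adjoin F _ c.2⟩

theorem ftwo : S_FTWO := by
  intro R Ω _ _ _ _ _ _ _ x e F N hN σ s hσ W hWc hWx hsW L hL γ hγ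
  obtain ⟨W', hW'⟩ := Pool.Agent.Y536.PS.extv N Ω W
  have hno : ∀ z : N, z ∈ W.nonunits ↔ (z : Ω) ∈ W'.nonunits := fun z => by
    rw [← hW']; exact non_comap _ _ _
  have hQ : ∀ c : ℚ, ((algebraMap ℚ F c : F) : Ω) = algebraMap ℚ Ω c := by
    intro c
    have h1 : (algebraMap F Ω).comp (algebraMap ℚ F) = algebraMap ℚ Ω := RingHom.ext_rat _ _
    exact DFunLike.congr_fun h1 c
  refine ⟨W', ⟨fun c => ?_, ?_⟩, fun z c hzc => ?_⟩
  · have h1 : algebraMap F N (algebraMap ℚ F c) ∈ W'.comap (algebraMap N Ω) := by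
      rw [hW']; exact hWc c
    rw [ValuationSubring.mem_comap] at h1
    rw [← hQ c]
    exact h1
  · have h1 := (hno _).1 hWx
    have h2 : ((algebraMap F N (algebraMap R F x - algebraMap ℚ F e) : N) : Ω) =
        algebraMap R Ω x - algebraMap ℚ Ω e := by
      rw [← hQ e]
      rfl
    rw [h2] at h1
    exact h1
  · have hzg : (z : Ω) ∈ geomPro 2 ℚ F Ω := hL z z.2
    have hcg : (c : Ω) ∈ geomPro 2 ℚ F Ω := const_mem 2 c
    let zN : N := ⟨z, hN hzg⟩
    let cN : N := ⟨c, hN hcg⟩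
    have hw : zN - cN ∈ W.nonunits := (hno _).2 hzc
    have hwg : ((zN - cN : N) : Ω) ∈ geomPro 2 ℚ F Ω := sub_mem hzg hcg
    have hsw : s (zN - cN) ∈ W.nonunits := by
      rw [nonunits_iff] at hw ⊢
      refine ⟨(hsW _ hwg).2 hw.1, ?_⟩
      rcases hw.2 with h0 | h0
      · left
        rw [h0, map_zero]
      · right
        rw [← map_inv₀]
        intro h1
        exact h0 ((hsW _ (inv_mem hwg)).1 h1)
    have h3 := (hno _).1 hsw
    have h4 : ((s (zN - cN) : N) : Ω) = (γ z : Ω) - (σ c : Ω) := by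
      rw [map_sub, hγ z zN rfl, ← hσ c cN rfl]
      rfl
    rw [h4] at h3
    exact h3

end Pool.Agent.Y954.PC
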